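import Pool.Agent.H95.GY.Targets

/-!
# MP_c39b0e_gt, module GYS: small compact subgroups which trap
-/

set_option autoImplicit false

open Filter Topology MeasureTheory Set
open scoped Pointwise

universe u

namespace Pool.Agent.H59.GY

open Pool.Agent.H95.GY

theorem pf_GYS (hTR : T_TR.{u}) (hNOR : T_NOR.{u}) : T_GYS.{u} := by
  intro G _ _ _ _ _ U hU
  obtain ⟨K, hK1, hKU, hKc⟩ := local_compact_nhds hU
  obtain ⟨V, hV, hVK⟩ := hTR G K hK1
  have hHK : ((Subgroup.closure (Pw V)).topologicalClosure : Set G) ⊆ K := by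
    rw [Subgroup.topologicalClosure_coe]
    exact closure_minimal hVK hKc.isClosed
  have hHc : IsCompact ((Subgroup.closure (Pw V)).topologicalClosure : Set G) :=
    hKc.of_isClosed_subset (Subgroup.isClosed_topologicalClosure _) hHK
  obtain ⟨N, hNH, hNc, hNV, O, hO, hNO, hOH⟩ :=
    hNOR G (Subgroup.closure (Pw V)).topologicalClosure hHc (interior V)
      (interior_mem_nhds.2 hV)
  refine ⟨N, hNc, fun x hx => hKU (hHK (hNH hx)), O ∩ interior V, hO.inter isOpen_interior,
    fun x hx => ⟨hNO hx, hNV hx⟩, fun H hH => ?_⟩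
  refine hOH H (fun x hx => ?_) (fun x hx => (hH hx).1)
  refine Subgroup.le_topologicalClosure _ (Subgroup.subset_closure ?_)
  intro n
  exact interior_subset (hH (H.zpow_mem hx n)).2

end Pool.Agent.H59.GY
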